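import Pool.Agent.N483.KM.Stm1
import Pool.Agent.R755.KF.All
import Pool.Agent.R755.KF.W1

/-!
# KM16: a test function which separates two sets for all measures near to `ν`
-/

set_option autoImplicit false

namespace Pool.Agent.N521.KM

open MeasureTheory Set Filter Topology
open scoped ENNReal InnerProductSpace
open Pool.Agent.H888R2.KT (gs gc gc_pos)
open Pool.Agent.R754.KG (E)
open Pool.Agent.R755.KF (BL PB ey aff PL3 be gp pxR)
open Pool.Agent.R755.KF.T6aux (gs_le_bd grad_le)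
open Pool.Agent.R755.KF.W1aux (gs_scale gs_tendsto)
open Pool.Agent.N483.KM

variable {k : ℕ}

/-- Gaussian averages of Lipschitz functions are Lipschitz -/
theorem gs_lip {h : ℝ} (hh : 0 < h) {f : E k → ℝ} (hf : Continuous f) (hb : ∀ y, |f y| ≤ 1)
    {L : ℝ} (hL : ∀ x y, |f x - f y| ≤ L * ‖x - y‖) (x y : E k) :
    |gs h f x - gs h f y| ≤ L * ‖x - y‖ := by
  have hi : Integrable fun u : E k => Real.exp (-(‖u‖ ^ 2 / 2)) := by
    have := Pool.Agent.H888R2.KT.N6ax.g_int (κ := Fin k) 1 one_pos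
    unfold Pool.Agent.H888R2.KT.N6ax.g at this
    simpa using this
  have hpos : 0 < ∫ u : E k, Real.exp (-(‖u‖ ^ 2 / 2)) := by
    have := (gc_pos (κ := Fin k) 1 one_pos).1
    unfold gc at this
    simpa using this
  have hint : ∀ z : E k, Integrable fun u : E k =>
      f (z + Real.sqrt h • u) * Real.exp (-(‖u‖ ^ 2 / 2)) := by
    intro z
    refine hi.mono' ?_ (Eventually.of_forall fun u => ?_)
    · refine Continuous.aestronglyMeasurable ?_
      exact (hf.comp (by fun_prop)).mul (by fun_prop)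
    · rw [norm_mul, Real.norm_eq_abs, Real.norm_eq_abs, abs_of_pos (Real.exp_pos _)]
      have := mul_le_mul_of_nonneg_right (hb (z + Real.sqrt h • u))
        (Real.exp_pos (-(‖u‖ ^ 2 / 2))).le
      linarith
  rw [gs_scale hh, gs_scale hh, ← sub_div, abs_div, abs_of_pos hpos, div_le_iff₀ hpos,
    ← integral_sub (hint x) (hint y)]
  refine (abs_integral_le_integral_abs).trans ?_
  rw [← integral_const_mul]
  refine integral_mono ((hint x).sub (hint y)).abs (hi.const_mul _) fun u => ?_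
  show |f (x + Real.sqrt h • u) * Real.exp (-(‖u‖ ^ 2 / 2)) -
    f (y + Real.sqrt h • u) * Real.exp (-(‖u‖ ^ 2 / 2))| ≤
      L * ‖x - y‖ * Real.exp (-(‖u‖ ^ 2 / 2))
  rw [← sub_mul, abs_mul, abs_of_pos (Real.exp_pos _)]
  refine mul_le_mul_of_nonneg_right ?_ (Real.exp_pos _).le
  have := hL (x + Real.sqrt h • u) (y + Real.sqrt h • u)
  rwa [add_sub_add_right_eq_sub] at this

/-- the cut-off distance function -/
noncomputable def ds (r : ℝ) (B : Set (E k)) (x : E k) : ℝ := min (Metric.infDist x B) r / r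

theorem ds_cont (r : ℝ) (B : Set (E k)) : Continuous (ds r B) := by
  unfold ds
  exact ((Metric.continuous_infDist_pt B).min continuous_const).div_const r

theorem ds_nonneg {r : ℝ} (hr : 0 < r) (B : Set (E k)) (x : E k) : 0 ≤ ds r B x :=
  div_nonneg (le_min Metric.infDist_nonneg hr.le) hr.le

theorem ds_le {r : ℝ} (hr : 0 < r) (B : Set (E k)) (x : E k) : ds r B x ≤ 1 := by
  unfold ds
  rw [div_le_one hr]
  exact min_le_right _ _

theorem ds_lip {r : ℝ} (hr : 0 < r) (B : Set (E k)) (x y : E k) :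
    |ds r B x - ds r B y| ≤ 1 / r * ‖x - y‖ := by
  unfold ds
  rw [← sub_div, abs_div, abs_of_pos hr, one_div, mul_comm, ← div_eq_mul_inv]
  refine div_le_div_of_nonneg_right ?_ hr.le
  have h1 : |min (Metric.infDist x B) r - min (Metric.infDist y B) r| ≤
      |Metric.infDist x B - Metric.infDist y B| := by
    have := abs_min_sub_min_le_max (Metric.infDist x B) r (Metric.infDist y B) r
    simpa using this
  refine h1.trans ?_
  have h2 := (Metric.lipschitz_infDist_pt B).dist_le_mul x y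
  rw [Real.dist_eq, NNReal.coe_one, one_mul, dist_eq_norm] at h2
  exact h2

theorem ds_zero {r : ℝ} (hr : 0 < r) {B : Set (E k)} {x : E k} (hx : x ∈ B) : ds r B x = 0 := by
  unfold ds
  rw [Metric.infDist_zero_of_mem hx, min_eq_left hr.le, zero_div]

theorem ds_one {r : ℝ} (hr : 0 < r) {B : Set (E k)} (hB : B.Nonempty) {x : E k}
    (hx : x ∉ Metric.thickening r B) : ds r B x = 1 := by
  unfold ds
  have h1 : r ≤ Metric.infDist x B := by
    by_contra hc
    push Not at hc
    rw [Metric.infDist_lt_iff hB] at hc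
    obtain ⟨y, hy, hxy⟩ := hc
    exact hx (Metric.mem_thickening_iff.2 ⟨y, hy, hxy⟩)
  rw [min_eq_right h1, div_self hr.ne']

/-- bounded continuous functions are integrable -/
theorem bi {ν : Measure (E k)} [IsProbabilityMeasure ν] {f : E k → ℝ} (hf : Continuous f)
    {C : ℝ} (hb : ∀ y, |f y| ≤ C) : Integrable f ν :=
  (integrable_const C).mono' hf.aestronglyMeasurable
    (Eventually.of_forall fun x => by rw [Real.norm_eq_abs]; exact hb x)

theorem var_ds {ν : Measure (E k)} [IsProbabilityMeasure ν] {r p : ℝ} (hr : 0 < r)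
    {B : Set (E k)} (hB : MeasurableSet B) (hp : 0 < p) (h1 : p ≤ ν.real B)
    (h2 : ν.real (Metric.thickening r B) ≤ 1 / 2) :
    p / 2 ≤ (∫ x, ds r B x ^ 2 ∂ν) - (∫ x, ds r B x ∂ν) ^ 2 := by
  have hne : B.Nonempty := by
    rcases B.eq_empty_or_nonempty with h | h
    · rw [h] at h1
      simp at h1
      linarith
    · exact h
  have hsub : B ⊆ Metric.thickening r B := Metric.self_subset_thickening hr B
  have hp2 : p ≤ 1 / 2 := h1.trans ((measureReal_mono hsub).trans h2)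
  have hTm : MeasurableSet (Metric.thickening r B) := Metric.isOpen_thickening.measurableSet
  have hcomp : 1 / 2 ≤ ν.real (Metric.thickening r B)ᶜ := by
    rw [probReal_compl_eq_one_sub hTm]
    linarith
  have hc := ds_cont r B
  have hb : ∀ x, |ds r B x| ≤ 1 := fun x => by
    rw [abs_of_nonneg (ds_nonneg hr B x)]
    exact ds_le hr B x
  have i1 : Integrable (ds r B) ν := bi hc hb
  have i2 : Integrable (fun x => ds r B x ^ 2) ν := by
    refine bi (hc.pow 2) (C := 1) fun x => ?_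
    rw [abs_pow]
    exact pow_le_one₀ (abs_nonneg _) (hb x)
  obtain ⟨m, hm⟩ : ∃ m, m = ∫ x, ds r B x ∂ν := ⟨_, rfl⟩
  have i6 : Integrable (fun x => ds r B x ^ 2 - 2 * m * ds r B x) ν :=
    i2.sub (i1.const_mul (2 * m))
  have hvar : (∫ x, ds r B x ^ 2 ∂ν) - (∫ x, ds r B x ∂ν) ^ 2 =
      ∫ x, (ds r B x - m) ^ 2 ∂ν := by
    have e1 : (fun x => (ds r B x - m) ^ 2) = fun x => (ds r B x ^ 2 - 2 * m * ds r B x) +
        m ^ 2 := by
      funext x; ring
    rw [e1, integral_add i6 (integrable_const _),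
      integral_sub i2 (i1.const_mul (2 * m)), integral_const_mul, ← hm]
    simp
    ring
  have i3 : Integrable (fun x => (ds r B x - m) ^ 2) ν := by
    have e1 : (fun x => (ds r B x - m) ^ 2) = fun x => (ds r B x ^ 2 - 2 * m * ds r B x) +
        m ^ 2 := by
      funext x; ring
    rw [e1]
    exact i6.add (integrable_const _)
  have i4 : Integrable (B.indicator fun _ => m ^ 2) ν := (integrable_const _).indicator hB
  have i5 : Integrable ((Metric.thickening r B)ᶜ.indicator fun _ => (1 - m) ^ 2) ν :=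
    (integrable_const _).indicator hTm.compl
  have hle : ∫ x, (B.indicator (fun _ => m ^ 2) x +
      (Metric.thickening r B)ᶜ.indicator (fun _ => (1 - m) ^ 2) x) ∂ν ≤
      ∫ x, (ds r B x - m) ^ 2 ∂ν := by
    refine integral_mono (i4.add i5) i3 fun x => ?_
    show B.indicator (fun _ => m ^ 2) x +
      (Metric.thickening r B)ᶜ.indicator (fun _ => (1 - m) ^ 2) x ≤ (ds r B x - m) ^ 2
    by_cases hx : x ∈ B
    · have hx2 : x ∉ (Metric.thickening r B)ᶜ := fun h => h (hsub hx)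
      rw [indicator_of_mem hx, indicator_of_notMem hx2, ds_zero hr hx]
      nlinarith
    · rw [indicator_of_notMem hx]
      by_cases hx2 : x ∈ (Metric.thickening r B)ᶜ
      · rw [indicator_of_mem hx2, ds_one hr hne hx2]
        linarith
      · rw [indicator_of_notMem hx2]
        nlinarith [sq_nonneg (ds r B x - m)]
  rw [integral_add i4 i5, integral_indicator_const _ hB,
    integral_indicator_const _ hTm.compl, smul_eq_mul, smul_eq_mul] at hle
  rw [hvar]
  have h3 : p * m ^ 2 ≤ ν.real B * m ^ 2 := mul_le_mul_of_nonneg_right h1 (sq_nonneg _)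
  have h4 : 1 / 2 * (1 - m) ^ 2 ≤ ν.real (Metric.thickening r B)ᶜ * (1 - m) ^ 2 :=
    mul_le_mul_of_nonneg_right hcomp (sq_nonneg _)
  have h5 : p * (1 - m) ^ 2 ≤ 1 / 2 * (1 - m) ^ 2 :=
    mul_le_mul_of_nonneg_right hp2 (sq_nonneg _)
  have h6 : p / 2 ≤ p * m ^ 2 + p * (1 - m) ^ 2 := by nlinarith [sq_nonneg (2 * m - 1)]
  linarith

/-- a smooth function with large variance -/
theorem ex_v {ν : Measure (E k)} [IsProbabilityMeasure ν] {r p : ℝ} (hr : 0 < r)
    {B : Set (E k)} (hB : MeasurableSet B) (hp : 0 < p) (h1 : p ≤ ν.real B)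
    (h2 : ν.real (Metric.thickening r B) ≤ 1 / 2) :
    ∃ v : E k → ℝ, ContDiff ℝ 1 v ∧ (∀ y, |v y| ≤ 1) ∧ (∀ y, ‖fderiv ℝ v y‖ ≤ 1 / r) ∧
      p / 4 ≤ (∫ x, v x ^ 2 ∂ν) - (∫ x, v x ∂ν) ^ 2 := by
  have hv := var_ds hr hB hp h1 h2
  have hc := ds_cont r B
  have hb : ∀ x, |ds r B x| ≤ 1 := fun x => by
    rw [abs_of_nonneg (ds_nonneg hr B x)]
    exact ds_le hr B x
  let τ : ℕ → ℝ := fun n => 1 / ((n : ℝ) + 1)
  have hτ : ∀ n, 0 < τ n := fun n => by
    show 0 < 1 / ((n : ℝ) + 1)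
    positivity
  have hlim : Tendsto τ atTop (𝓝 0) := tendsto_one_div_add_atTop_nhds_zero_nat
  have hgc : ∀ n, ContDiff ℝ 1 (gs (τ n) (ds r B)) := fun n =>
    (be k (τ n) 1 (ds r B) (hτ n) hc hb).1
  have t1 : Tendsto (fun n => ∫ x, gs (τ n) (ds r B) x ^ 2 ∂ν) atTop
      (𝓝 (∫ x, ds r B x ^ 2 ∂ν)) := by
    refine tendsto_integral_of_dominated_convergence (fun _ => (1 : ℝ)) (fun n => ?_)
      (integrable_const _) (fun n => Eventually.of_forall fun x => ?_)
      (Eventually.of_forall fun x => ?_)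
    · exact ((hgc n).continuous.pow 2).aestronglyMeasurable
    · rw [Real.norm_eq_abs, abs_pow]
      exact pow_le_one₀ (abs_nonneg _) (gs_le_bd (hτ n) hc hb _)
    · exact (gs_tendsto hc hb _ τ hτ hlim).pow 2
  have t2 : Tendsto (fun n => ∫ x, gs (τ n) (ds r B) x ∂ν) atTop
      (𝓝 (∫ x, ds r B x ∂ν)) := by
    refine tendsto_integral_of_dominated_convergence (fun _ => (1 : ℝ)) (fun n => ?_)
      (integrable_const _) (fun n => Eventually.of_forall fun x => ?_)
      (Eventually.of_forall fun x => ?_)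
    · exact (hgc n).continuous.aestronglyMeasurable
    · rw [Real.norm_eq_abs]
      exact gs_le_bd (hτ n) hc hb _
    · exact gs_tendsto hc hb _ τ hτ hlim
  have t3 := t1.sub (t2.pow 2)
  have h3 : p / 4 < (∫ x, ds r B x ^ 2 ∂ν) - (∫ x, ds r B x ∂ν) ^ 2 := by linarith
  obtain ⟨n, hn⟩ := (t3.eventually (lt_mem_nhds h3)).exists
  refine ⟨gs (τ n) (ds r B), hgc n, fun y => gs_le_bd (hτ n) hc hb y, fun y => ?_, hn.le⟩
  have hL : LipschitzWith (Real.toNNReal (1 / r)) (gs (τ n) (ds r B)) := by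
    refine LipschitzWith.of_dist_le_mul fun x y => ?_
    rw [Real.dist_eq, dist_eq_norm, Real.coe_toNNReal _ (by positivity)]
    exact gs_lip (hτ n) hc hb (ds_lip hr B) x y
  have := norm_fderiv_le_of_lipschitz ℝ hL (x₀ := y)
  rwa [Real.coe_toNNReal _ (by positivity)] at this

theorem t_TRF (h1 : S_AFB) (h2 : S_LCI) : S_TRF := by
  intro p hp
  refine ⟨p / 96, (p / 200) ^ 2, p / 32, by positivity, by positivity, by positivity, ?_⟩
  intro k r ν B hν hr hB hpB hth
  obtain ⟨-, hPL, B0, hB0, hPB⟩ := h2 k ν hν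
  have := hPB.prob
  obtain ⟨v, hv1, hv2, hv3, hv4⟩ := ex_v hr hB hp hpB hth
  have hh : 0 < p / 96 * r ^ 2 := by positivity
  obtain ⟨f, hf1, hf2, hf3, hf4⟩ := pxR k (p / 96 * r ^ 2) B0 (1 / r) ν hh hB0 (by positivity) hPB
    hPL v hv1 hv2 hv3
  obtain ⟨h, hhd⟩ : ∃ h, h = p / 96 * r ^ 2 := ⟨_, rfl⟩
  rw [← hhd] at hf4 hh ⊢
  have e1 : 2 * h * (1 / r) ^ 2 = p / 48 := by
    rw [hhd]; field_simp; ring
  rw [e1] at hf4
  have hBL : BL (max 1 (2 / r)) f := by
    refine ⟨hf1, fun y => (hf2 y).trans (le_max_left _ _), fun y => ?_⟩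
    refine (hf3 y).trans ((le_of_eq ?_).trans (le_max_right _ _))
    ring
  have hf3' : ∀ y, ‖fderiv ℝ f y‖ ≤ 2 / r := fun y => (hf3 y).trans (le_of_eq (by ring))
  have hgc : ContDiff ℝ 1 (gs h f) := (be k h 1 f hh hf1.continuous hf2).1
  have hgb : ∀ y, |gs h f y| ≤ 1 := fun y => gs_le_bd hh hf1.continuous hf2 y
  refine ⟨gs h f, hgc, hgb, fun y => ?_, ?_⟩
  · have h3 := grad_le hh hBL (L := 2 / r) (by positivity) hf3' y
    refine h3.trans ?_
    exact div_le_div_of_nonneg_right (by norm_num) hr.le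
  intro B2 ν2 hP2 haff
  have := hP2.prob
  have hf2c : Continuous fun y => f y ^ 2 := hf1.continuous.pow 2
  have hf2b : ∀ y, |f y ^ 2| ≤ 1 := fun y => by
    rw [abs_pow]
    exact pow_le_one₀ (abs_nonneg _) (hf2 y)
  obtain ⟨ha0, ha1⟩ := h1 k h B0 B2 ν ν2 f hh hPB hP2 hf1.continuous hf2
  obtain ⟨-, ha2⟩ := h1 k h B0 B2 ν ν2 (fun y => f y ^ 2) hh hPB hP2 hf2c hf2b
  have hs : Real.sqrt (1 - aff h ν ν2) ≤ p / 200 := by
    rw [Real.sqrt_le_left (by positivity)]
    exact haff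
  have hE : ∀ (μ : Measure (E k)) [IsProbabilityMeasure μ], |ey h μ f| ≤ 1 := by
    intro μ hμ
    unfold ey
    refine abs_integral_le_integral_abs.trans ?_
    have : ∫ x, |gs h f x| ∂μ ≤ ∫ _x, (1 : ℝ) ∂μ :=
      integral_mono (bi hgc.continuous hgb).abs (integrable_const _) hgb
    simpa using this
  have hE1 := hE ν
  have hE2 := hE ν2
  -- the Poincaré inequality
  have hpt : ∀ x, gs h (fun y => f y ^ 2) x - p / 24 ≤ gs h f x ^ 2 := by
    intro x
    have h3 := gp k h _ f hh hBL x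
    have h4 : gs h (fun y => ‖fderiv ℝ f y‖ ^ 2) x ≤ (2 / r) ^ 2 := by
      refine (le_abs_self _).trans (gs_le_bd hh ?_ (fun y => ?_) x)
      · exact (hf1.continuous_fderiv one_ne_zero).norm.pow 2
      · rw [abs_pow, abs_norm]
        exact pow_le_pow_left₀ (norm_nonneg _) (hf3' y) 2
    have h5 : h * (2 / r) ^ 2 = p / 24 := by
      rw [hhd]; field_simp; ring
    have h6 := mul_le_mul_of_nonneg_left h4 hh.le
    linarith
  have hg2c : Continuous (gs h fun y => f y ^ 2) := (be k h 1 _ hh hf2c hf2b).1.continuous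
  have hg2b : ∀ y, |gs h (fun y => f y ^ 2) y| ≤ 1 := fun y => gs_le_bd hh hf2c hf2b y
  have hI : ey h ν2 (fun y => f y ^ 2) - p / 24 ≤ ∫ x, gs h f x ^ 2 ∂ν2 := by
    have h3 : ∫ x, (gs h (fun y => f y ^ 2) x - p / 24) ∂ν2 ≤ ∫ x, gs h f x ^ 2 ∂ν2 := by
      refine integral_mono ((bi hg2c hg2b).sub (integrable_const _)) ?_ hpt
      refine bi (hgc.continuous.pow 2) (C := 1) fun x => ?_
      rw [abs_pow]
      exact pow_le_one₀ (abs_nonneg _) (hgb x)
    rw [integral_sub (bi hg2c hg2b) (integrable_const _)] at h3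
    simpa [ey] using h3
  have hJ : ∫ x, gs h f x ∂ν2 = ey h ν2 f := rfl
  rw [hJ]
  rw [abs_le] at ha1 ha2 hE1 hE2
  have h7 : ey h ν2 f ^ 2 ≤ ey h ν f ^ 2 + 6 * (p / 200) := by
    have h8 : |ey h ν2 f - ey h ν f| * |ey h ν2 f + ey h ν f| ≤ (3 * (p / 200)) * 2 := by
      refine mul_le_mul ?_ ?_ (abs_nonneg _) (by positivity)
      · rw [abs_le]; constructor <;> linarith
      · rw [abs_le]; constructor <;> linarith
    rw [← abs_mul] at h8
    have h9 := (le_abs_self _).trans h8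
    nlinarith
  linarith

end Pool.Agent.N521.KM
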